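import Pool.Agent.N643.Rk

/-!
# The main argument, for internal types
-/

set_option maxHeartbeats 1000000
set_option linter.all false
set_option synthInstance.maxSize 2000

namespace Pool.Agent.Helper672.ZFA.N643

open FirstOrder FirstOrder.Language
open H635 (IWO)
open Pool.Agent.Helper672.ZFA.V246
open Pool.Agent.H310

universe u

section

variable (M : Type u) [L.Structure M] [hM : IsModel M] {P K : Type u} [ITy M P] [ITy M K]

/-- A preorder on `P`, a condition `p` and a relation `W` on `P`, `ω` and `K` that behaves below
`p` like: the condition `q` forces that the value at `n` is `x`. -/
structure Sys (le : P → P → Prop) (W : P → INat M → K → Prop) (p : P) : Prop where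
  int_le : Int M (fun q : P × P => le q.1 q.2)
  int_W : Int M (fun q : (P × INat M) × K => W q.1.1 q.1.2 q.2)
  refl : ∀ q, le q q
  trans : ∀ q r s, le q r → le r s → le q s
  mono : ∀ q r n x, le r q → W q n x → W r n x
  uniq : ∀ r n x y, le r p → W r n x → W r n y → x = y
  total : ∀ r n, le r p → ∃ t x, le t r ∧ W t n x
  onto : ∀ r x, le r p → ∃ t n, le t r ∧ W t n x

/-- Compatibility. -/
def Cp (le : P → P → Prop) (q r : P) : Prop := ∃ s, le s q ∧ le s r

/-- The strong countable chain condition. -/
def C3 (le : P → P → Prop) : Prop :=
  ∀ D : P → Prop, Int M D → (∀ q, ∃ d, D d ∧ Cp le q d) →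
    ∃ E : P → Prop, Int M E ∧ (∀ q, E q → D q) ∧ (∀ q, ∃ d, E d ∧ Cp le q d) ∧ Ctb M E

variable {M}
variable {le : P → P → Prop} {W : P → INat M → K → Prop} {p : P}

variable (hs : Sys M le W p) (hc : C3 M le)

include hs in
theorem int_Cp : Int M (fun q : P × P => Cp le q.1 q.2) := by
  have hle := hs.int_le
  unfold Cp
  (repeat' (first | with_reducible exact IntF.id | with_reducible exact IntF.fst' | with_reducible exact IntF.snd' | with_reducible exact IntF.const _ | with_reducible exact Int.const _ | assumption | with_reducible apply Int.and | with_reducible apply Int.or | with_reducible apply Int.not | with_reducible apply Int.imp | with_reducible apply Int.iff | with_reducible apply Int.ne | with_reducible apply Int.eq | with_reducible apply Int.mem | with_reducible apply Int.subset | with_reducible apply Int.ltN | with_reducible apply Int.leN | with_reducible_and_instances apply Int.le | with_reducible_and_instances apply Int.lt | with_reducible apply Int.all | with_reducible apply Int.ex | with_reducible apply IntF.fst | with_reducible apply IntF.snd | with_reducible apply IntF.app | with_reducible apply IntF.inl | with_reducible apply IntF.inr | with_reducible_and_instances apply IntF.mul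 | with_reducible_and_instances apply IntF.inv | with_reducible_and_instances apply IntF.add | with_reducible_and_instances apply IntF.sub | with_reducible_and_instances apply IntF.neg | with_reducible_and_instances apply IntF.smul | with_reducible apply Int.fin | with_reducible apply IntF.sep | with_reducible apply IntF.lam | with_reducible apply IntF.insert | with_reducible apply IntF.singleton | with_reducible apply IntF.union | with_reducible apply IntF.iimage | with_reducible apply IntF.ite | with_reducible apply IntF.the | with_reducible apply IntF.irec | with_reducible apply IntF.succ | with_reducible apply IntF.val | with_reducible apply IntF.mk | (with_reducible refine Int.comp ?_ ?_; assumption) | (with_reducible refine Int.comp₂ ?_ ?_ ?_; assumption) | (with_reducible refine Int.comp₃ ?_ ?_ ?_ ?_; assumption) | (with_reducible refine Int.comp₄ ?_ ?_ ?_ ?_ ?_; assumption) | (with_reducible refine IntF.comp ?_ ?_; assumption) | (with_reducible refine IntF.comp₂ ?_ ?_ ?_; assumption) | (with_reducible refine IntF.comp₃ ?_ ?_ ?_ ?_; assumption) | with_reducible apply IntF.pair))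

/-- The possible values. -/
def Vp (le : P → P → Prop) (W : P → INat M → K → Prop) (q : P) (n : INat M) (x : K) : Prop :=
  ∃ t, le t q ∧ W t n x

include hs in
theorem int_Vp : Int M (fun q : (P × INat M) × K => Vp le W q.1.1 q.1.2 q.2) := by
  have hle := hs.int_le
  have hW := hs.int_W
  unfold Vp
  refine Int.ex (Int.and ?_ ?_)
  · (repeat' (first | with_reducible exact IntF.id | with_reducible exact IntF.fst' | with_reducible exact IntF.snd' | with_reducible exact IntF.const _ | with_reducible exact Int.const _ | assumption | with_reducible apply Int.and | with_reducible apply Int.or | with_reducible apply Int.not | with_reducible apply Int.imp | with_reducible apply Int.iff | with_reducible apply Int.ne | with_reducible apply Int.eq | with_reducible apply Int.mem | with_reducible apply Int.subset | with_reducible apply Int.ltN | with_reducible apply Int.leN | with_reducible_and_instances apply Int.le | with_reducible_and_instances apply Int.lt | with_reducible apply Int.all | with_reducible apply Int.ex | with_reducible apply IntF.fst | with_reducible apply IntF.snd | with_reducible apply IntF.app | with_reducible apply IntF.inl | with_reducible apply IntF.inr | with_reducible_and_instances apply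 IntF.mul | with_reducible_and_instances apply IntF.inv | with_reducible_and_instances apply IntF.add | with_reducible_and_instances apply IntF.sub | with_reducible_and_instances apply IntF.neg | with_reducible_and_instances apply IntF.smul | with_reducible apply Int.fin | with_reducible apply IntF.sep | with_reducible apply IntF.lam | with_reducible apply IntF.insert | with_reducible apply IntF.singleton | with_reducible apply IntF.union | with_reducible apply IntF.iimage | with_reducible apply IntF.ite | with_reducible apply IntF.the | with_reducible apply IntF.irec | with_reducible apply IntF.succ | with_reducible apply IntF.val | with_reducible apply IntF.mk | (with_reducible refine Int.comp ?_ ?_; assumption) | (with_reducible refine Int.comp₂ ?_ ?_ ?_; assumption) | (with_reducible refine Int.comp₃ ?_ ?_ ?_ ?_; assumption) | (with_reducible refine Int.comp₄ ?_ ?_ ?_ ?_ ?_; assumption) | (with_reducible refine IntF.comp ?_ ?_; assumption) | (with_reducible refine IntF.comp₂ ?_ ?_ ?_; assumption) | (with_reducible refine IntF.comp₃ ?_ ?_ ?_ ?_; assumption) | with_reducible apply IntF.pair))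
  · exact Int.comp₃ (p := fun q n x => W q n x) hW (by (repeat' (first | with_reducible exact IntF.id | with_reducible exact IntF.fst' | with_reducible exact IntF.snd' | with_reducible exact IntF.const _ | with_reducible exact Int.const _ | assumption | with_reducible apply Int.and | with_reducible apply Int.or | with_reducible apply Int.not | with_reducible apply Int.imp | with_reducible apply Int.iff | with_reducible apply Int.ne | with_reducible apply Int.eq | with_reducible apply Int.mem | with_reducible apply Int.subset | with_reducible apply Int.ltN | with_reducible apply Int.leN | with_reducible_and_instances apply Int.le | with_reducible_and_instances apply Int.lt | with_reducible apply Int.all | with_reducible apply Int.ex | with_reducible apply IntF.fst | with_reducible apply IntF.snd | with_reducible apply IntF.app | with_reducible apply IntF.inl | with_reducible apply IntF.inr | with_reducible_and_instances apply IntF.mul | with_reducible_and_instances apply IntF.inv | with_reducible_and_instances apply IntF.add | with_reducible_and_instances apply IntF.sub | with_reducible_and_instances apply IntF.neg | with_reducible_and_instances apply IntF.smul | with_reducible apply Int.fin | with_reducible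 apply IntF.sep | with_reducible apply IntF.lam | with_reducible apply IntF.insert | with_reducible apply IntF.singleton | with_reducible apply IntF.union | with_reducible apply IntF.iimage | with_reducible apply IntF.ite | with_reducible apply IntF.the | with_reducible apply IntF.irec | with_reducible apply IntF.succ | with_reducible apply IntF.val | with_reducible apply IntF.mk | (with_reducible refine Int.comp ?_ ?_; assumption) | (with_reducible refine Int.comp₂ ?_ ?_ ?_; assumption) | (with_reducible refine Int.comp₃ ?_ ?_ ?_ ?_; assumption) | (with_reducible refine Int.comp₄ ?_ ?_ ?_ ?_ ?_; assumption) | (with_reducible refine IntF.comp ?_ ?_; assumption) | (with_reducible refine IntF.comp₂ ?_ ?_ ?_; assumption) | (with_reducible refine IntF.comp₃ ?_ ?_ ?_ ?_; assumption) | with_reducible apply IntF.pair))) (by (repeat' (first | with_reducible exact IntF.id | with_reducible exact IntF.fst' | with_reducible exact IntF.snd' | with_reducible exact IntF.const _ | with_reducible exact Int.const _ | assumption | with_reducible apply Int.and | with_reducible apply Int.or | with_reducible apply Int.not | with_reducible apply Int.imp | with_reducible apply Int.iff | with_reducible apply Int.ne | with_reducible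 apply Int.eq | with_reducible apply Int.mem | with_reducible apply Int.subset | with_reducible apply Int.ltN | with_reducible apply Int.leN | with_reducible_and_instances apply Int.le | with_reducible_and_instances apply Int.lt | with_reducible apply Int.all | with_reducible apply Int.ex | with_reducible apply IntF.fst | with_reducible apply IntF.snd | with_reducible apply IntF.app | with_reducible apply IntF.inl | with_reducible apply IntF.inr | with_reducible_and_instances apply IntF.mul | with_reducible_and_instances apply IntF.inv | with_reducible_and_instances apply IntF.add | with_reducible_and_instances apply IntF.sub | with_reducible_and_instances apply IntF.neg | with_reducible_and_instances apply IntF.smul | with_reducible apply Int.fin | with_reducible apply IntF.sep | with_reducible apply IntF.lam | with_reducible apply IntF.insert | with_reducible apply IntF.singleton | with_reducible apply IntF.union | with_reducible apply IntF.iimage | with_reducible apply IntF.ite | with_reducible apply IntF.the | with_reducible apply IntF.irec | with_reducible apply IntF.succ | with_reducible apply IntF.val | with_reducible apply IntF.mk | (with_reducible refine Int.comp ?_ ?_; assumption) | (with_reducible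 refine Int.comp₂ ?_ ?_ ?_; assumption) | (with_reducible refine Int.comp₃ ?_ ?_ ?_ ?_; assumption) | (with_reducible refine Int.comp₄ ?_ ?_ ?_ ?_ ?_; assumption) | (with_reducible refine IntF.comp ?_ ?_; assumption) | (with_reducible refine IntF.comp₂ ?_ ?_ ?_; assumption) | (with_reducible refine IntF.comp₃ ?_ ?_ ?_ ?_; assumption) | with_reducible apply IntF.pair))) (by (repeat' (first | with_reducible exact IntF.id | with_reducible exact IntF.fst' | with_reducible exact IntF.snd' | with_reducible exact IntF.const _ | with_reducible exact Int.const _ | assumption | with_reducible apply Int.and | with_reducible apply Int.or | with_reducible apply Int.not | with_reducible apply Int.imp | with_reducible apply Int.iff | with_reducible apply Int.ne | with_reducible apply Int.eq | with_reducible apply Int.mem | with_reducible apply Int.subset | with_reducible apply Int.ltN | with_reducible apply Int.leN | with_reducible_and_instances apply Int.le | with_reducible_and_instances apply Int.lt | with_reducible apply Int.all | with_reducible apply Int.ex | with_reducible apply IntF.fst | with_reducible apply IntF.snd | with_reducible apply IntF.app | with_reducible apply IntF.inl | with_reducible apply IntF.inr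 | with_reducible_and_instances apply IntF.mul | with_reducible_and_instances apply IntF.inv | with_reducible_and_instances apply IntF.add | with_reducible_and_instances apply IntF.sub | with_reducible_and_instances apply IntF.neg | with_reducible_and_instances apply IntF.smul | with_reducible apply Int.fin | with_reducible apply IntF.sep | with_reducible apply IntF.lam | with_reducible apply IntF.insert | with_reducible apply IntF.singleton | with_reducible apply IntF.union | with_reducible apply IntF.iimage | with_reducible apply IntF.ite | with_reducible apply IntF.the | with_reducible apply IntF.irec | with_reducible apply IntF.succ | with_reducible apply IntF.val | with_reducible apply IntF.mk | (with_reducible refine Int.comp ?_ ?_; assumption) | (with_reducible refine Int.comp₂ ?_ ?_ ?_; assumption) | (with_reducible refine Int.comp₃ ?_ ?_ ?_ ?_; assumption) | (with_reducible refine Int.comp₄ ?_ ?_ ?_ ?_ ?_; assumption) | (with_reducible refine IntF.comp ?_ ?_; assumption) | (with_reducible refine IntF.comp₂ ?_ ?_ ?_; assumption) | (with_reducible refine IntF.comp₃ ?_ ?_ ?_ ?_; assumption) | with_reducible apply IntF.pair)))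

include hs hc in
/-- Uniform enumerations. -/
theorem unif {A : INat M → Prop} (hA : Int M A) {b : INat M → P} (hb : IntF M b)
    {v : INat M → INat M} (hv : IntF M v) (hbp : ∀ i, A i → le (b i) p)
    (hanti : ∀ i j, A i → A j → Cp le (b i) (b j) → i = j) :
    ∃ (G : INat M × K → INat M) (δ : INat M × K → P), IntF M G ∧ IntF M δ ∧
      (∀ i x, A i → Vp le W (b i) (v i) x → le (δ (i, x)) (b i) ∧ W (δ (i, x)) (v i) x) ∧
      ∀ i x i' x', A i → A i' → Vp le W (b i) (v i) x → Vp le W (b i') (v i') x' →
        G (i, x) = G (i', x') → i = i' ∧ x = x' := by
  have hle := hs.int_le
  have hW := hs.int_W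
  have hCp := int_Cp hs
  have hWI : ∀ {γ : Type u} [ITy M γ] {f : γ → P} {g : γ → INat M} {k : γ → K}, IntF M f →
      IntF M g → IntF M k → Int M (fun c => W (f c) (g c) (k c)) := fun hf hg hk =>
    Int.comp₃ (p := fun q n x => W q n x) hW hf hg hk
  obtain ⟨E, hEI, hED, hEp, e, he, hei⟩ := hc (fun d => (∃ i, A i ∧ le d (b i) ∧ ∃ x, W d (v i) x) ∨
      ∀ i, A i → ¬ Cp le d (b i)) (by
        refine Int.or (Int.ex (Int.and (by (repeat' (first | with_reducible exact IntF.id | with_reducible exact IntF.fst' | with_reducible exact IntF.snd' | with_reducible exact IntF.const _ | with_reducible exact Int.const _ | assumption | with_reducible apply Int.and | with_reducible apply Int.or | with_reducible apply Int.not | with_reducible apply Int.imp | with_reducible apply Int.iff | with_reducible apply Int.ne | with_reducible apply Int.eq | with_reducible apply Int.mem | with_reducible apply Int.subset | with_reducible apply Int.ltN | with_reducible apply Int.leN | with_reducible_and_instances apply Int.le | with_reducible_and_instances apply Int.lt | with_reducible apply Int.all | with_reducible apply Int.ex | with_reducible apply IntF.fst | with_reducible apply IntF.snd | with_reducible apply IntF.app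 | with_reducible apply IntF.inl | with_reducible apply IntF.inr | with_reducible_and_instances apply IntF.mul | with_reducible_and_instances apply IntF.inv | with_reducible_and_instances apply IntF.add | with_reducible_and_instances apply IntF.sub | with_reducible_and_instances apply IntF.neg | with_reducible_and_instances apply IntF.smul | with_reducible apply Int.fin | with_reducible apply IntF.sep | with_reducible apply IntF.lam | with_reducible apply IntF.insert | with_reducible apply IntF.singleton | with_reducible apply IntF.union | with_reducible apply IntF.iimage | with_reducible apply IntF.ite | with_reducible apply IntF.the | with_reducible apply IntF.irec | with_reducible apply IntF.succ | with_reducible apply IntF.val | with_reducible apply IntF.mk | (with_reducible refine Int.comp ?_ ?_; assumption) | (with_reducible refine Int.comp₂ ?_ ?_ ?_; assumption) | (with_reducible refine Int.comp₃ ?_ ?_ ?_ ?_; assumption) | (with_reducible refine Int.comp₄ ?_ ?_ ?_ ?_ ?_; assumption) | (with_reducible refine IntF.comp ?_ ?_; assumption) | (with_reducible refine IntF.comp₂ ?_ ?_ ?_; assumption) | (with_reducible refine IntF.comp₃ ?_ ?_ ?_ ?_; assumption) | with_reducible apply IntF.pair))) (Int.and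 (by (repeat' (first | with_reducible exact IntF.id | with_reducible exact IntF.fst' | with_reducible exact IntF.snd' | with_reducible exact IntF.const _ | with_reducible exact Int.const _ | assumption | with_reducible apply Int.and | with_reducible apply Int.or | with_reducible apply Int.not | with_reducible apply Int.imp | with_reducible apply Int.iff | with_reducible apply Int.ne | with_reducible apply Int.eq | with_reducible apply Int.mem | with_reducible apply Int.subset | with_reducible apply Int.ltN | with_reducible apply Int.leN | with_reducible_and_instances apply Int.le | with_reducible_and_instances apply Int.lt | with_reducible apply Int.all | with_reducible apply Int.ex | with_reducible apply IntF.fst | with_reducible apply IntF.snd | with_reducible apply IntF.app | with_reducible apply IntF.inl | with_reducible apply IntF.inr | with_reducible_and_instances apply IntF.mul | with_reducible_and_instances apply IntF.inv | with_reducible_and_instances apply IntF.add | with_reducible_and_instances apply IntF.sub | with_reducible_and_instances apply IntF.neg | with_reducible_and_instances apply IntF.smul | with_reducible apply Int.fin | with_reducible apply IntF.sep | with_reducible apply IntF.lam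 | with_reducible apply IntF.insert | with_reducible apply IntF.singleton | with_reducible apply IntF.union | with_reducible apply IntF.iimage | with_reducible apply IntF.ite | with_reducible apply IntF.the | with_reducible apply IntF.irec | with_reducible apply IntF.succ | with_reducible apply IntF.val | with_reducible apply IntF.mk | (with_reducible refine Int.comp ?_ ?_; assumption) | (with_reducible refine Int.comp₂ ?_ ?_ ?_; assumption) | (with_reducible refine Int.comp₃ ?_ ?_ ?_ ?_; assumption) | (with_reducible refine Int.comp₄ ?_ ?_ ?_ ?_ ?_; assumption) | (with_reducible refine IntF.comp ?_ ?_; assumption) | (with_reducible refine IntF.comp₂ ?_ ?_ ?_; assumption) | (with_reducible refine IntF.comp₃ ?_ ?_ ?_ ?_; assumption) | with_reducible apply IntF.pair))) (Int.ex (hWI (by (repeat' (first | with_reducible exact IntF.id | with_reducible exact IntF.fst' | with_reducible exact IntF.snd' | with_reducible exact IntF.const _ | with_reducible exact Int.const _ | assumption | with_reducible apply Int.and | with_reducible apply Int.or | with_reducible apply Int.not | with_reducible apply Int.imp | with_reducible apply Int.iff | with_reducible apply Int.ne | with_reducible apply Int.eq | with_reducible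 apply Int.mem | with_reducible apply Int.subset | with_reducible apply Int.ltN | with_reducible apply Int.leN | with_reducible_and_instances apply Int.le | with_reducible_and_instances apply Int.lt | with_reducible apply Int.all | with_reducible apply Int.ex | with_reducible apply IntF.fst | with_reducible apply IntF.snd | with_reducible apply IntF.app | with_reducible apply IntF.inl | with_reducible apply IntF.inr | with_reducible_and_instances apply IntF.mul | with_reducible_and_instances apply IntF.inv | with_reducible_and_instances apply IntF.add | with_reducible_and_instances apply IntF.sub | with_reducible_and_instances apply IntF.neg | with_reducible_and_instances apply IntF.smul | with_reducible apply Int.fin | with_reducible apply IntF.sep | with_reducible apply IntF.lam | with_reducible apply IntF.insert | with_reducible apply IntF.singleton | with_reducible apply IntF.union | with_reducible apply IntF.iimage | with_reducible apply IntF.ite | with_reducible apply IntF.the | with_reducible apply IntF.irec | with_reducible apply IntF.succ | with_reducible apply IntF.val | with_reducible apply IntF.mk | (with_reducible refine Int.comp ?_ ?_; assumption) | (with_reducible refine Int.comp₂ ?_ ?_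 ?_; assumption) | (with_reducible refine Int.comp₃ ?_ ?_ ?_ ?_; assumption) | (with_reducible refine Int.comp₄ ?_ ?_ ?_ ?_ ?_; assumption) | (with_reducible refine IntF.comp ?_ ?_; assumption) | (with_reducible refine IntF.comp₂ ?_ ?_ ?_; assumption) | (with_reducible refine IntF.comp₃ ?_ ?_ ?_ ?_; assumption) | with_reducible apply IntF.pair)))
          (by (repeat' (first | with_reducible exact IntF.id | with_reducible exact IntF.fst' | with_reducible exact IntF.snd' | with_reducible exact IntF.const _ | with_reducible exact Int.const _ | assumption | with_reducible apply Int.and | with_reducible apply Int.or | with_reducible apply Int.not | with_reducible apply Int.imp | with_reducible apply Int.iff | with_reducible apply Int.ne | with_reducible apply Int.eq | with_reducible apply Int.mem | with_reducible apply Int.subset | with_reducible apply Int.ltN | with_reducible apply Int.leN | with_reducible_and_instances apply Int.le | with_reducible_and_instances apply Int.lt | with_reducible apply Int.all | with_reducible apply Int.ex | with_reducible apply IntF.fst | with_reducible apply IntF.snd | with_reducible apply IntF.app | with_reducible apply IntF.inl | with_reducible apply IntF.inr | with_reducible_and_instances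 apply IntF.mul | with_reducible_and_instances apply IntF.inv | with_reducible_and_instances apply IntF.add | with_reducible_and_instances apply IntF.sub | with_reducible_and_instances apply IntF.neg | with_reducible_and_instances apply IntF.smul | with_reducible apply Int.fin | with_reducible apply IntF.sep | with_reducible apply IntF.lam | with_reducible apply IntF.insert | with_reducible apply IntF.singleton | with_reducible apply IntF.union | with_reducible apply IntF.iimage | with_reducible apply IntF.ite | with_reducible apply IntF.the | with_reducible apply IntF.irec | with_reducible apply IntF.succ | with_reducible apply IntF.val | with_reducible apply IntF.mk | (with_reducible refine Int.comp ?_ ?_; assumption) | (with_reducible refine Int.comp₂ ?_ ?_ ?_; assumption) | (with_reducible refine Int.comp₃ ?_ ?_ ?_ ?_; assumption) | (with_reducible refine Int.comp₄ ?_ ?_ ?_ ?_ ?_; assumption) | (with_reducible refine IntF.comp ?_ ?_; assumption) | (with_reducible refine IntF.comp₂ ?_ ?_ ?_; assumption) | (with_reducible refine IntF.comp₃ ?_ ?_ ?_ ?_; assumption) | with_reducible apply IntF.pair))) (by (repeat' (first | with_reducible exact IntF.id | with_reducible exact IntF.fst' | with_reducible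 exact IntF.snd' | with_reducible exact IntF.const _ | with_reducible exact Int.const _ | assumption | with_reducible apply Int.and | with_reducible apply Int.or | with_reducible apply Int.not | with_reducible apply Int.imp | with_reducible apply Int.iff | with_reducible apply Int.ne | with_reducible apply Int.eq | with_reducible apply Int.mem | with_reducible apply Int.subset | with_reducible apply Int.ltN | with_reducible apply Int.leN | with_reducible_and_instances apply Int.le | with_reducible_and_instances apply Int.lt | with_reducible apply Int.all | with_reducible apply Int.ex | with_reducible apply IntF.fst | with_reducible apply IntF.snd | with_reducible apply IntF.app | with_reducible apply IntF.inl | with_reducible apply IntF.inr | with_reducible_and_instances apply IntF.mul | with_reducible_and_instances apply IntF.inv | with_reducible_and_instances apply IntF.add | with_reducible_and_instances apply IntF.sub | with_reducible_and_instances apply IntF.neg | with_reducible_and_instances apply IntF.smul | with_reducible apply Int.fin | with_reducible apply IntF.sep | with_reducible apply IntF.lam | with_reducible apply IntF.insert | with_reducible apply IntF.singleton | with_reducible apply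 IntF.union | with_reducible apply IntF.iimage | with_reducible apply IntF.ite | with_reducible apply IntF.the | with_reducible apply IntF.irec | with_reducible apply IntF.succ | with_reducible apply IntF.val | with_reducible apply IntF.mk | (with_reducible refine Int.comp ?_ ?_; assumption) | (with_reducible refine Int.comp₂ ?_ ?_ ?_; assumption) | (with_reducible refine Int.comp₃ ?_ ?_ ?_ ?_; assumption) | (with_reducible refine Int.comp₄ ?_ ?_ ?_ ?_ ?_; assumption) | (with_reducible refine IntF.comp ?_ ?_; assumption) | (with_reducible refine IntF.comp₂ ?_ ?_ ?_; assumption) | (with_reducible refine IntF.comp₃ ?_ ?_ ?_ ?_; assumption) | with_reducible apply IntF.pair)))))))) (by (repeat' (first | with_reducible exact IntF.id | with_reducible exact IntF.fst' | with_reducible exact IntF.snd' | with_reducible exact IntF.const _ | with_reducible exact Int.const _ | assumption | with_reducible apply Int.and | with_reducible apply Int.or | with_reducible apply Int.not | with_reducible apply Int.imp | with_reducible apply Int.iff | with_reducible apply Int.ne | with_reducible apply Int.eq | with_reducible apply Int.mem | with_reducible apply Int.subset | with_reducible apply Int.ltN | with_reducible apply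 Int.leN | with_reducible_and_instances apply Int.le | with_reducible_and_instances apply Int.lt | with_reducible apply Int.all | with_reducible apply Int.ex | with_reducible apply IntF.fst | with_reducible apply IntF.snd | with_reducible apply IntF.app | with_reducible apply IntF.inl | with_reducible apply IntF.inr | with_reducible_and_instances apply IntF.mul | with_reducible_and_instances apply IntF.inv | with_reducible_and_instances apply IntF.add | with_reducible_and_instances apply IntF.sub | with_reducible_and_instances apply IntF.neg | with_reducible_and_instances apply IntF.smul | with_reducible apply Int.fin | with_reducible apply IntF.sep | with_reducible apply IntF.lam | with_reducible apply IntF.insert | with_reducible apply IntF.singleton | with_reducible apply IntF.union | with_reducible apply IntF.iimage | with_reducible apply IntF.ite | with_reducible apply IntF.the | with_reducible apply IntF.irec | with_reducible apply IntF.succ | with_reducible apply IntF.val | with_reducible apply IntF.mk | (with_reducible refine Int.comp ?_ ?_; assumption) | (with_reducible refine Int.comp₂ ?_ ?_ ?_; assumption) | (with_reducible refine Int.comp₃ ?_ ?_ ?_ ?_; assumption) | (with_reducible refine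 Int.comp₄ ?_ ?_ ?_ ?_ ?_; assumption) | (with_reducible refine IntF.comp ?_ ?_; assumption) | (with_reducible refine IntF.comp₂ ?_ ?_ ?_; assumption) | (with_reducible refine IntF.comp₃ ?_ ?_ ?_ ?_; assumption) | with_reducible apply IntF.pair)))) (by
      intro q
      by_cases h1 : ∃ i, A i ∧ Cp le q (b i)
      · obtain ⟨i, hi, t, h2, h3⟩ := h1
        obtain ⟨t', x, h4, h5⟩ := hs.total t (v i) (hs.trans _ _ _ h3 (hbp i hi))
        exact ⟨t', Or.inl ⟨i, hi, hs.trans _ _ _ h4 h3, x, h5⟩, t',
          hs.trans _ _ _ h4 h2, hs.refl _⟩
      · exact ⟨q, Or.inr fun i hi h2 => h1 ⟨i, hi, h2⟩, q, hs.refl q, hs.refl q⟩)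
  have hd : ∀ d d', E d → E d' → e d = e d' → d = d' := hei
  -- the key fact
  have key : ∀ i x, A i → Vp le W (b i) (v i) x → ∃ d, E d ∧ le d (b i) ∧ W d (v i) x := by
    rintro i x hi ⟨t, h1, h2⟩
    obtain ⟨d, hd, s, h3, h4⟩ := hEp t
    rcases hED d hd with ⟨j, hj, h5, y, h6⟩ | h5
    · have hij : i = j := hanti i j hi hj ⟨s, hs.trans _ _ _ h3 h1, hs.trans _ _ _ h4 h5⟩
      subst hij
      have h7 : x = y := hs.uniq s (v i) x y (hs.trans _ _ _ h3 (hs.trans _ _ _ h1 (hbp i hi)))
        (hs.mono _ _ _ _ h3 h2) (hs.mono _ _ _ _ h4 h6)
      subst h7
      exact ⟨d, hd, h5, h6⟩
    · exact absurd ⟨s, h4, hs.trans _ _ _ h3 h1⟩ (h5 i hi)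
  obtain ⟨q₀, -⟩ := hEp p
  -- the least number
  have hI : Int M (fun q : (INat M × K) × INat M => ∃ d, E d ∧ le d (b q.1.1) ∧
      W d (v q.1.1) q.1.2 ∧ e d = q.2) :=
    Int.ex (Int.and (by (repeat' (first | with_reducible exact IntF.id | with_reducible exact IntF.fst' | with_reducible exact IntF.snd' | with_reducible exact IntF.const _ | with_reducible exact Int.const _ | assumption | with_reducible apply Int.and | with_reducible apply Int.or | with_reducible apply Int.not | with_reducible apply Int.imp | with_reducible apply Int.iff | with_reducible apply Int.ne | with_reducible apply Int.eq | with_reducible apply Int.mem | with_reducible apply Int.subset | with_reducible apply Int.ltN | with_reducible apply Int.leN | with_reducible_and_instances apply Int.le | with_reducible_and_instances apply Int.lt | with_reducible apply Int.all | with_reducible apply Int.ex | with_reducible apply IntF.fst | with_reducible apply IntF.snd | with_reducible apply IntF.app | with_reducible apply IntF.inl | with_reducible apply IntF.inr | with_reducible_and_instances apply IntF.mul | with_reducible_and_instances apply IntF.inv | with_reducible_and_instances apply IntF.add | with_reducible_and_instances apply IntF.sub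 | with_reducible_and_instances apply IntF.neg | with_reducible_and_instances apply IntF.smul | with_reducible apply Int.fin | with_reducible apply IntF.sep | with_reducible apply IntF.lam | with_reducible apply IntF.insert | with_reducible apply IntF.singleton | with_reducible apply IntF.union | with_reducible apply IntF.iimage | with_reducible apply IntF.ite | with_reducible apply IntF.the | with_reducible apply IntF.irec | with_reducible apply IntF.succ | with_reducible apply IntF.val | with_reducible apply IntF.mk | (with_reducible refine Int.comp ?_ ?_; assumption) | (with_reducible refine Int.comp₂ ?_ ?_ ?_; assumption) | (with_reducible refine Int.comp₃ ?_ ?_ ?_ ?_; assumption) | (with_reducible refine Int.comp₄ ?_ ?_ ?_ ?_ ?_; assumption) | (with_reducible refine IntF.comp ?_ ?_; assumption) | (with_reducible refine IntF.comp₂ ?_ ?_ ?_; assumption) | (with_reducible refine IntF.comp₃ ?_ ?_ ?_ ?_; assumption) | with_reducible apply IntF.pair))) (Int.and (by (repeat' (first | with_reducible exact IntF.id | with_reducible exact IntF.fst' | with_reducible exact IntF.snd' | with_reducible exact IntF.const _ | with_reducible exact Int.const _ | assumption | with_reducible apply Int.and | with_reducible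 apply Int.or | with_reducible apply Int.not | with_reducible apply Int.imp | with_reducible apply Int.iff | with_reducible apply Int.ne | with_reducible apply Int.eq | with_reducible apply Int.mem | with_reducible apply Int.subset | with_reducible apply Int.ltN | with_reducible apply Int.leN | with_reducible_and_instances apply Int.le | with_reducible_and_instances apply Int.lt | with_reducible apply Int.all | with_reducible apply Int.ex | with_reducible apply IntF.fst | with_reducible apply IntF.snd | with_reducible apply IntF.app | with_reducible apply IntF.inl | with_reducible apply IntF.inr | with_reducible_and_instances apply IntF.mul | with_reducible_and_instances apply IntF.inv | with_reducible_and_instances apply IntF.add | with_reducible_and_instances apply IntF.sub | with_reducible_and_instances apply IntF.neg | with_reducible_and_instances apply IntF.smul | with_reducible apply Int.fin | with_reducible apply IntF.sep | with_reducible apply IntF.lam | with_reducible apply IntF.insert | with_reducible apply IntF.singleton | with_reducible apply IntF.union | with_reducible apply IntF.iimage | with_reducible apply IntF.ite | with_reducible apply IntF.the | with_reducible apply IntF.irec | with_reducible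 apply IntF.succ | with_reducible apply IntF.val | with_reducible apply IntF.mk | (with_reducible refine Int.comp ?_ ?_; assumption) | (with_reducible refine Int.comp₂ ?_ ?_ ?_; assumption) | (with_reducible refine Int.comp₃ ?_ ?_ ?_ ?_; assumption) | (with_reducible refine Int.comp₄ ?_ ?_ ?_ ?_ ?_; assumption) | (with_reducible refine IntF.comp ?_ ?_; assumption) | (with_reducible refine IntF.comp₂ ?_ ?_ ?_; assumption) | (with_reducible refine IntF.comp₃ ?_ ?_ ?_ ?_; assumption) | with_reducible apply IntF.pair))) (Int.and (hWI (by (repeat' (first | with_reducible exact IntF.id | with_reducible exact IntF.fst' | with_reducible exact IntF.snd' | with_reducible exact IntF.const _ | with_reducible exact Int.const _ | assumption | with_reducible apply Int.and | with_reducible apply Int.or | with_reducible apply Int.not | with_reducible apply Int.imp | with_reducible apply Int.iff | with_reducible apply Int.ne | with_reducible apply Int.eq | with_reducible apply Int.mem | with_reducible apply Int.subset | with_reducible apply Int.ltN | with_reducible apply Int.leN | with_reducible_and_instances apply Int.le | with_reducible_and_instances apply Int.lt | with_reducible apply Int.all | with_reducible apply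 Int.ex | with_reducible apply IntF.fst | with_reducible apply IntF.snd | with_reducible apply IntF.app | with_reducible apply IntF.inl | with_reducible apply IntF.inr | with_reducible_and_instances apply IntF.mul | with_reducible_and_instances apply IntF.inv | with_reducible_and_instances apply IntF.add | with_reducible_and_instances apply IntF.sub | with_reducible_and_instances apply IntF.neg | with_reducible_and_instances apply IntF.smul | with_reducible apply Int.fin | with_reducible apply IntF.sep | with_reducible apply IntF.lam | with_reducible apply IntF.insert | with_reducible apply IntF.singleton | with_reducible apply IntF.union | with_reducible apply IntF.iimage | with_reducible apply IntF.ite | with_reducible apply IntF.the | with_reducible apply IntF.irec | with_reducible apply IntF.succ | with_reducible apply IntF.val | with_reducible apply IntF.mk | (with_reducible refine Int.comp ?_ ?_; assumption) | (with_reducible refine Int.comp₂ ?_ ?_ ?_; assumption) | (with_reducible refine Int.comp₃ ?_ ?_ ?_ ?_; assumption) | (with_reducible refine Int.comp₄ ?_ ?_ ?_ ?_ ?_; assumption) | (with_reducible refine IntF.comp ?_ ?_; assumption) | (with_reducible refine IntF.comp₂ ?_ ?_ ?_; assumption)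 | (with_reducible refine IntF.comp₃ ?_ ?_ ?_ ?_; assumption) | with_reducible apply IntF.pair))) (by (repeat' (first | with_reducible exact IntF.id | with_reducible exact IntF.fst' | with_reducible exact IntF.snd' | with_reducible exact IntF.const _ | with_reducible exact Int.const _ | assumption | with_reducible apply Int.and | with_reducible apply Int.or | with_reducible apply Int.not | with_reducible apply Int.imp | with_reducible apply Int.iff | with_reducible apply Int.ne | with_reducible apply Int.eq | with_reducible apply Int.mem | with_reducible apply Int.subset | with_reducible apply Int.ltN | with_reducible apply Int.leN | with_reducible_and_instances apply Int.le | with_reducible_and_instances apply Int.lt | with_reducible apply Int.all | with_reducible apply Int.ex | with_reducible apply IntF.fst | with_reducible apply IntF.snd | with_reducible apply IntF.app | with_reducible apply IntF.inl | with_reducible apply IntF.inr | with_reducible_and_instances apply IntF.mul | with_reducible_and_instances apply IntF.inv | with_reducible_and_instances apply IntF.add | with_reducible_and_instances apply IntF.sub | with_reducible_and_instances apply IntF.neg | with_reducible_and_instances apply IntF.smul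 | with_reducible apply Int.fin | with_reducible apply IntF.sep | with_reducible apply IntF.lam | with_reducible apply IntF.insert | with_reducible apply IntF.singleton | with_reducible apply IntF.union | with_reducible apply IntF.iimage | with_reducible apply IntF.ite | with_reducible apply IntF.the | with_reducible apply IntF.irec | with_reducible apply IntF.succ | with_reducible apply IntF.val | with_reducible apply IntF.mk | (with_reducible refine Int.comp ?_ ?_; assumption) | (with_reducible refine Int.comp₂ ?_ ?_ ?_; assumption) | (with_reducible refine Int.comp₃ ?_ ?_ ?_ ?_; assumption) | (with_reducible refine Int.comp₄ ?_ ?_ ?_ ?_ ?_; assumption) | (with_reducible refine IntF.comp ?_ ?_; assumption) | (with_reducible refine IntF.comp₂ ?_ ?_ ?_; assumption) | (with_reducible refine IntF.comp₃ ?_ ?_ ?_ ?_; assumption) | with_reducible apply IntF.pair))) (by (repeat' (first | with_reducible exact IntF.id | with_reducible exact IntF.fst' | with_reducible exact IntF.snd' | with_reducible exact IntF.const _ | with_reducible exact Int.const _ | assumption | with_reducible apply Int.and | with_reducible apply Int.or | with_reducible apply Int.not | with_reducible apply Int.imp | with_reducible apply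 Int.iff | with_reducible apply Int.ne | with_reducible apply Int.eq | with_reducible apply Int.mem | with_reducible apply Int.subset | with_reducible apply Int.ltN | with_reducible apply Int.leN | with_reducible_and_instances apply Int.le | with_reducible_and_instances apply Int.lt | with_reducible apply Int.all | with_reducible apply Int.ex | with_reducible apply IntF.fst | with_reducible apply IntF.snd | with_reducible apply IntF.app | with_reducible apply IntF.inl | with_reducible apply IntF.inr | with_reducible_and_instances apply IntF.mul | with_reducible_and_instances apply IntF.inv | with_reducible_and_instances apply IntF.add | with_reducible_and_instances apply IntF.sub | with_reducible_and_instances apply IntF.neg | with_reducible_and_instances apply IntF.smul | with_reducible apply Int.fin | with_reducible apply IntF.sep | with_reducible apply IntF.lam | with_reducible apply IntF.insert | with_reducible apply IntF.singleton | with_reducible apply IntF.union | with_reducible apply IntF.iimage | with_reducible apply IntF.ite | with_reducible apply IntF.the | with_reducible apply IntF.irec | with_reducible apply IntF.succ | with_reducible apply IntF.val | with_reducible apply IntF.mk | (with_reducible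 refine Int.comp ?_ ?_; assumption) | (with_reducible refine Int.comp₂ ?_ ?_ ?_; assumption) | (with_reducible refine Int.comp₃ ?_ ?_ ?_ ?_; assumption) | (with_reducible refine Int.comp₄ ?_ ?_ ?_ ?_ ?_; assumption) | (with_reducible refine IntF.comp ?_ ?_; assumption) | (with_reducible refine IntF.comp₂ ?_ ?_ ?_; assumption) | (with_reducible refine IntF.comp₃ ?_ ?_ ?_ ?_; assumption) | with_reducible apply IntF.pair))))
      (by (repeat' (first | with_reducible exact IntF.id | with_reducible exact IntF.fst' | with_reducible exact IntF.snd' | with_reducible exact IntF.const _ | with_reducible exact Int.const _ | assumption | with_reducible apply Int.and | with_reducible apply Int.or | with_reducible apply Int.not | with_reducible apply Int.imp | with_reducible apply Int.iff | with_reducible apply Int.ne | with_reducible apply Int.eq | with_reducible apply Int.mem | with_reducible apply Int.subset | with_reducible apply Int.ltN | with_reducible apply Int.leN | with_reducible_and_instances apply Int.le | with_reducible_and_instances apply Int.lt | with_reducible apply Int.all | with_reducible apply Int.ex | with_reducible apply IntF.fst | with_reducible apply IntF.snd | with_reducible apply IntF.app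 | with_reducible apply IntF.inl | with_reducible apply IntF.inr | with_reducible_and_instances apply IntF.mul | with_reducible_and_instances apply IntF.inv | with_reducible_and_instances apply IntF.add | with_reducible_and_instances apply IntF.sub | with_reducible_and_instances apply IntF.neg | with_reducible_and_instances apply IntF.smul | with_reducible apply Int.fin | with_reducible apply IntF.sep | with_reducible apply IntF.lam | with_reducible apply IntF.insert | with_reducible apply IntF.singleton | with_reducible apply IntF.union | with_reducible apply IntF.iimage | with_reducible apply IntF.ite | with_reducible apply IntF.the | with_reducible apply IntF.irec | with_reducible apply IntF.succ | with_reducible apply IntF.val | with_reducible apply IntF.mk | (with_reducible refine Int.comp ?_ ?_; assumption) | (with_reducible refine Int.comp₂ ?_ ?_ ?_; assumption) | (with_reducible refine Int.comp₃ ?_ ?_ ?_ ?_; assumption) | (with_reducible refine Int.comp₄ ?_ ?_ ?_ ?_ ?_; assumption) | (with_reducible refine IntF.comp ?_ ?_; assumption) | (with_reducible refine IntF.comp₂ ?_ ?_ ?_; assumption) | (with_reducible refine IntF.comp₃ ?_ ?_ ?_ ?_; assumption) | with_reducible apply IntF.pair))))))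
  obtain ⟨G, hG, hG'⟩ := exists_lf (iwoNn (N := M)) (γ := INat M × K)
    (r := fun q n => ∃ d, E d ∧ le d (b q.1) ∧ W d (v q.1) q.2 ∧ e d = n) hI 0
  have hI' : Int M (fun q : (INat M × K) × P => E q.2 ∧ e q.2 = G q.1) := by (repeat' (first | with_reducible exact IntF.id | with_reducible exact IntF.fst' | with_reducible exact IntF.snd' | with_reducible exact IntF.const _ | with_reducible exact Int.const _ | assumption | with_reducible apply Int.and | with_reducible apply Int.or | with_reducible apply Int.not | with_reducible apply Int.imp | with_reducible apply Int.iff | with_reducible apply Int.ne | with_reducible apply Int.eq | with_reducible apply Int.mem | with_reducible apply Int.subset | with_reducible apply Int.ltN | with_reducible apply Int.leN | with_reducible_and_instances apply Int.le | with_reducible_and_instances apply Int.lt | with_reducible apply Int.all | with_reducible apply Int.ex | with_reducible apply IntF.fst | with_reducible apply IntF.snd | with_reducible apply IntF.app | with_reducible apply IntF.inl | with_reducible apply IntF.inr | with_reducible_and_instances apply IntF.mul | with_reducible_and_instances apply IntF.inv | with_reducible_and_instances apply IntF.add | with_reducible_and_instances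 apply IntF.sub | with_reducible_and_instances apply IntF.neg | with_reducible_and_instances apply IntF.smul | with_reducible apply Int.fin | with_reducible apply IntF.sep | with_reducible apply IntF.lam | with_reducible apply IntF.insert | with_reducible apply IntF.singleton | with_reducible apply IntF.union | with_reducible apply IntF.iimage | with_reducible apply IntF.ite | with_reducible apply IntF.the | with_reducible apply IntF.irec | with_reducible apply IntF.succ | with_reducible apply IntF.val | with_reducible apply IntF.mk | (with_reducible refine Int.comp ?_ ?_; assumption) | (with_reducible refine Int.comp₂ ?_ ?_ ?_; assumption) | (with_reducible refine Int.comp₃ ?_ ?_ ?_ ?_; assumption) | (with_reducible refine Int.comp₄ ?_ ?_ ?_ ?_ ?_; assumption) | (with_reducible refine IntF.comp ?_ ?_; assumption) | (with_reducible refine IntF.comp₂ ?_ ?_ ?_; assumption) | (with_reducible refine IntF.comp₃ ?_ ?_ ?_ ?_; assumption) | with_reducible apply IntF.pair))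
  refine ⟨G, fun q => the (fun d => E d ∧ e d = G q) q₀, hG, IntF.the hI' (IntF.const _), ?_, ?_⟩
  · intro i x hi hx
    obtain ⟨d, h1, h2, h3⟩ := key i x hi hx
    obtain ⟨⟨d', h4, h5, h6, h7⟩, -⟩ := hG' (i, x) ⟨e d, d, h1, h2, h3, rfl⟩
    have h8 : the (fun d => E d ∧ e d = G (i, x)) q₀ = d' :=
      the_eq ⟨d', ⟨h4, h7⟩, fun d'' h9 => hd _ _ h9.1 h4 (h9.2.trans h7.symm)⟩ ⟨h4, h7⟩
    change le (the (fun d => E d ∧ e d = G (i, x)) q₀) (b i) ∧
      W (the (fun d => E d ∧ e d = G (i, x)) q₀) (v i) x
    rw [h8]
    exact ⟨h5, h6⟩
  · intro i x i' x' hi hi' hx hx' hGG
    obtain ⟨d, h1, h2, h3⟩ := key i x hi hx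
    obtain ⟨⟨d, h4, h5, h6, h7⟩, -⟩ := hG' (i, x) ⟨e d, d, h1, h2, h3, rfl⟩
    obtain ⟨d', h1, h2, h3⟩ := key i' x' hi' hx'
    obtain ⟨⟨d', h4', h5', h6', h7'⟩, -⟩ := hG' (i', x') ⟨e d', d', h1, h2, h3, rfl⟩
    have h8 : d = d' := hd _ _ h4 h4' (h7.trans (hGG.trans h7'.symm))
    subst h8
    have h9 : i = i' := hanti i i' hi hi' ⟨d, h5, h5'⟩
    subst h9
    exact ⟨rfl, hs.uniq d (v i) x x' (hs.trans _ _ _ h5 (hbp i hi)) h6 h6'⟩

variable {lt : K → K → Prop} (h : IWO M K lt) {w : K} {j : INat M → K} (hj : IntF M j)
  (hji : Function.Injective j) (hjw : ∀ n, lt (j n) w)
  (hseg : ∀ a : K, Ctb M (fun x => lt x a)) (hunc : ¬ Ctb M (fun _ : K => True))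

include hs h hseg hunc in
/-- The ranks of the sets of possible values cover `K`. -/
theorem cover {q : P} (hq : le q p) (y₀ a : K) :
    ∃ n, RR lt y₀ (sep M (Vp le W q n)) a := by
  by_contra hcon
  push Not at hcon
  have hlt := h.int
  have hV := int_Vp hs
  have hr := int_rk h y₀
  have hVI : ∀ {γ : Type u} [ITy M γ] {g : γ → INat M} {k : γ → K},
      IntF M g → IntF M k → Int M (fun c => Vp le W q (g c) (k c)) := fun hg hk =>
    Int.comp₃ (p := fun q n x => Vp le W q n x) hV (IntF.const q) hg hk
  have hVn : ∀ n, Int M (Vp le W q n) := fun n => hVI (IntF.const n) IntF.id
  have hsub : ∀ n x, Vp le W q n x → lt (rk lt y₀ (sep M (Vp le W q n)) x) a := by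
    intro n x hx
    rcases h.tri (rk lt y₀ (sep M (Vp le W q n)) x) a with h1 | h1 | h1
    · exact h1
    · exact absurd ⟨x, (mem_sep (hVn n)).2 hx, h1⟩ (hcon n)
    · exact absurd (RR.down h ⟨x, (mem_sep (hVn n)).2 hx, rfl⟩ h1) (hcon n)
  obtain ⟨e, he, hei⟩ := hseg a
  obtain ⟨f, hf, hf'⟩ := exists_lf (iwoNn (N := M)) (γ := K)
    (r := fun x n => Vp le W q n x) (hVI IntF.snd' IntF.fst') 0
  have hfx : ∀ x, Vp le W q (f x) x := by
    intro x
    obtain ⟨t, n, h1, h2⟩ := hs.onto q x hq
    exact (hf' x ⟨n, t, h1, h2⟩).1
  have hp : IntF M (fun q : INat M × INat M => pr q.1 q.2) := int_pr
  have hsepI : IntF M (fun n => sep M (Vp le W q n)) := IntF.sep (hVI IntF.fst' IntF.snd')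
  have hsf : IntF M (fun x => sep M (Vp le W q (f x))) := IntF.comp (g := fun n => sep M (Vp le W q n)) hsepI hf
  have hrf : IntF M (fun x : K => rk lt y₀ (sep M (Vp le W q (f x))) x) :=
    IntF.comp₂ (p := fun C a => rk lt y₀ C a) hr hsf IntF.id
  refine hunc ⟨fun x => pr (f x) (e (rk lt y₀ (sep M (Vp le W q (f x))) x)), ?_, ?_⟩
  · exact IntF.comp₂ (p := fun m n : INat M => pr m n) hp hf (he.comp hrf)
  · intro x y _ _ hxy
    obtain ⟨h1, h2⟩ := pr_inj hxy
    have h3 := hei _ _ (hsub (f x) x (hfx x)) (hsub (f y) y (hfx y)) h2
    rw [← h1] at h3
    refine rk_inj h ((mem_sep (hVn (f x))).2 (hfx x)) ((mem_sep (hVn (f x))).2 ?_) h3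
    rw [h1]
    exact hfx y

include hs hc h hj hji hjw hseg hunc in
theorem main : False := by
  have hlt := h.int
  have hle := hs.int_le
  have hW := hs.int_W
  have hV := int_Vp hs
  have hr := int_rk h w
  have hRR := int_RR h (y₀ := w)
  have hVI : ∀ {γ : Type u} [ITy M γ] {f : γ → P} {g : γ → INat M} {k : γ → K}, IntF M f →
      IntF M g → IntF M k → Int M (fun c => Vp le W (f c) (g c) (k c)) := fun hf hg hk =>
    Int.comp₃ (p := fun q n x => Vp le W q n x) hV hf hg hk
  have hVn : ∀ q n, Int M (Vp le W q n) := fun q n => hVI (IntF.const q) (IntF.const n) IntF.id
  have hsp : ∀ {γ : Type u} [ITy M γ] {f : γ → P} {g : γ → INat M}, IntF M f →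
      IntF M g → IntF M (fun c => sep M (Vp le W (f c) (g c))) := fun hf hg =>
    IntF.sep (hVI (hf.comp IntF.fst') (hg.comp IntF.fst') IntF.snd')
  have hcov : ∀ q, le q p → ∀ a, ∃ n, RR lt w (sep M (Vp le W q n)) a := fun q hq a =>
    cover hs h hseg hunc hq w a
  -- the sets of values of `p` are not large
  have hB : ∀ n, ∃ a, ¬ RR lt w (sep M (Vp le W p n)) a := by
    intro n
    by_contra hcon
    push Not at hcon
    obtain ⟨G, δ, hG, -, -, hGi⟩ := unif hs hc (A := fun i => i = 0) (by (repeat' (first | with_reducible exact IntF.id | with_reducible exact IntF.fst' | with_reducible exact IntF.snd' | with_reducible exact IntF.const _ | with_reducible exact Int.const _ | assumption | with_reducible apply Int.and | with_reducible apply Int.or | with_reducible apply Int.not | with_reducible apply Int.imp | with_reducible apply Int.iff | with_reducible apply Int.ne | with_reducible apply Int.eq | with_reducible apply Int.mem | with_reducible apply Int.subset | with_reducible apply Int.ltN | with_reducible apply Int.leN | with_reducible_and_instances apply Int.le | with_reducible_and_instances apply Int.lt | with_reducible apply Int.all | with_reducible apply Int.ex | with_reducible apply IntF.fst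 | with_reducible apply IntF.snd | with_reducible apply IntF.app | with_reducible apply IntF.inl | with_reducible apply IntF.inr | with_reducible_and_instances apply IntF.mul | with_reducible_and_instances apply IntF.inv | with_reducible_and_instances apply IntF.add | with_reducible_and_instances apply IntF.sub | with_reducible_and_instances apply IntF.neg | with_reducible_and_instances apply IntF.smul | with_reducible apply Int.fin | with_reducible apply IntF.sep | with_reducible apply IntF.lam | with_reducible apply IntF.insert | with_reducible apply IntF.singleton | with_reducible apply IntF.union | with_reducible apply IntF.iimage | with_reducible apply IntF.ite | with_reducible apply IntF.the | with_reducible apply IntF.irec | with_reducible apply IntF.succ | with_reducible apply IntF.val | with_reducible apply IntF.mk | (with_reducible refine Int.comp ?_ ?_; assumption) | (with_reducible refine Int.comp₂ ?_ ?_ ?_; assumption) | (with_reducible refine Int.comp₃ ?_ ?_ ?_ ?_; assumption) | (with_reducible refine Int.comp₄ ?_ ?_ ?_ ?_ ?_; assumption) | (with_reducible refine IntF.comp ?_ ?_; assumption) | (with_reducible refine IntF.comp₂ ?_ ?_ ?_; assumption) | (with_reducible refine IntF.comp₃ ?_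 ?_ ?_ ?_; assumption) | with_reducible apply IntF.pair))) (b := fun _ => p)
      (IntF.const _) (v := fun _ => n) (IntF.const _) (fun i _ => hs.refl p)
      (fun i j hi hj _ => hi.trans hj.symm)
    obtain ⟨g, hg, hg'⟩ := exists_lf h (γ := K) (r := fun a x => Vp le W p n x ∧
      rk lt w (sep M (Vp le W p n)) x = a) (by
        refine Int.and (hVI (IntF.const _) (IntF.const _) IntF.snd') (Int.eq ?_ IntF.fst')
        exact IntF.comp₂ (p := fun C a => rk lt w C a) hr (IntF.const _) IntF.snd') w
    have hgx : ∀ a, Vp le W p n (g a) ∧ rk lt w (sep M (Vp le W p n)) (g a) = a := by
      intro a
      obtain ⟨x, hx, h1⟩ := hcon a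
      exact (hg' a ⟨x, (mem_sep (hVn p n)).1 hx, h1⟩).1
    refine hunc ⟨fun a => G (0, g a), ?_, ?_⟩
    · exact hG.comp ((IntF.const _).pair hg)
    · intro a a' _ _ haa
      have h1 := (hGi 0 (g a) 0 (g a') rfl rfl (hgx a).1 (hgx a').1 haa).2
      rw [← (hgx a).2, ← (hgx a').2, h1]
  -- an infinite antichain
  obtain ⟨n₀, hn₀⟩ := hcov p (hs.refl p) w
  obtain ⟨xf, hxf, hxf'⟩ := exists_lf h (γ := INat M) (r := fun i x => Vp le W p n₀ x ∧
      rk lt w (sep M (Vp le W p n₀)) x = j i) (by
        refine Int.and (hVI (IntF.const _) (IntF.const _) IntF.snd') (Int.eq ?_
          (hj.comp IntF.fst'))
        exact IntF.comp₂ (p := fun C a => rk lt w C a) hr (IntF.const _) IntF.snd') w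
  have hx : ∀ i, Vp le W p n₀ (xf i) ∧ rk lt w (sep M (Vp le W p n₀)) (xf i) = j i := by
    intro i
    obtain ⟨x, hx, h1⟩ := RR.down h hn₀ (hjw i)
    exact (hxf' i ⟨x, (mem_sep (hVn p n₀)).1 hx, h1⟩).1
  obtain ⟨b, hb, hbp, hbW⟩ : ∃ b : INat M → P, IntF M b ∧ (∀ i, le (b i) p) ∧
      ∀ i, W (b i) n₀ (xf i) := by
    obtain ⟨G, δ, -, hδ, hδ', -⟩ := unif hs hc (A := fun i => i = 0) (by (repeat' (first | with_reducible exact IntF.id | with_reducible exact IntF.fst' | with_reducible exact IntF.snd' | with_reducible exact IntF.const _ | with_reducible exact Int.const _ | assumption | with_reducible apply Int.and | with_reducible apply Int.or | with_reducible apply Int.not | with_reducible apply Int.imp | with_reducible apply Int.iff | with_reducible apply Int.ne | with_reducible apply Int.eq | with_reducible apply Int.mem | with_reducible apply Int.subset | with_reducible apply Int.ltN | with_reducible apply Int.leN | with_reducible_and_instances apply Int.le | with_reducible_and_instances apply Int.lt | with_reducible apply Int.all | with_reducible apply Int.ex | with_reducible apply IntF.fst | with_reducible apply IntF.snd | with_reducible apply IntF.app | with_reducible apply IntF.inl | with_reducible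 apply IntF.inr | with_reducible_and_instances apply IntF.mul | with_reducible_and_instances apply IntF.inv | with_reducible_and_instances apply IntF.add | with_reducible_and_instances apply IntF.sub | with_reducible_and_instances apply IntF.neg | with_reducible_and_instances apply IntF.smul | with_reducible apply Int.fin | with_reducible apply IntF.sep | with_reducible apply IntF.lam | with_reducible apply IntF.insert | with_reducible apply IntF.singleton | with_reducible apply IntF.union | with_reducible apply IntF.iimage | with_reducible apply IntF.ite | with_reducible apply IntF.the | with_reducible apply IntF.irec | with_reducible apply IntF.succ | with_reducible apply IntF.val | with_reducible apply IntF.mk | (with_reducible refine Int.comp ?_ ?_; assumption) | (with_reducible refine Int.comp₂ ?_ ?_ ?_; assumption) | (with_reducible refine Int.comp₃ ?_ ?_ ?_ ?_; assumption) | (with_reducible refine Int.comp₄ ?_ ?_ ?_ ?_ ?_; assumption) | (with_reducible refine IntF.comp ?_ ?_; assumption) | (with_reducible refine IntF.comp₂ ?_ ?_ ?_; assumption) | (with_reducible refine IntF.comp₃ ?_ ?_ ?_ ?_; assumption) | with_reducible apply IntF.pair))) (b := fun _ => p)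
      (IntF.const _) (v := fun _ => n₀) (IntF.const _) (fun i _ => hs.refl p)
      (fun i j hi hj _ => hi.trans hj.symm)
    exact ⟨fun i => δ (0, xf i), hδ.comp ((IntF.const _).pair hxf),
      fun i => (hδ' 0 (xf i) rfl (hx i).1).1, fun i => (hδ' 0 (xf i) rfl (hx i).1).2⟩
  have hanti : ∀ i i', Cp le (b i) (b i') → i = i' := by
    rintro i i' ⟨s, h1, h2⟩
    have h3 := hs.uniq s n₀ (xf i) (xf i') (hs.trans _ _ _ h1 (hbp i)) (hs.mono _ _ _ _ h1 (hbW i))
      (hs.mono _ _ _ _ h2 (hbW i'))
    refine hji ?_
    rw [← (hx i).2, ← (hx i').2, h3]
  -- the cofinal sequence
  obtain ⟨al, hal, hal'⟩ := exists_lf h (γ := INat M)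
    (r := fun n a => ¬ RR lt w (sep M (Vp le W p n)) a) (by
      refine Int.not (Int.comp₂ (p := fun C a => RR lt w C a) hRR ?_ IntF.snd')
      exact hsp (IntF.const _) IntF.fst') w
  have hcof : ∀ a, ∃ n, lt a (al n) := by
    intro a
    obtain ⟨n, hn⟩ := hcov p (hs.refl p) a
    refine ⟨n, ?_⟩
    have h1 := (hal' n (hB n)).1
    rcases h.tri a (al n) with h2 | h2 | h2
    · exact h2
    · exact absurd (h2 ▸ hn) h1
    · exact absurd (RR.down h hn h2) h1
  -- the numbers
  obtain ⟨v, hv, hv'⟩ := exists_lf (iwoNn (N := M)) (γ := INat M)
    (r := fun i n => RR lt w (sep M (Vp le W (b i) n)) (al i)) (by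
      refine Int.comp₂ (p := fun C a => RR lt w C a) hRR ?_ (hal.comp IntF.fst')
      exact hsp (hb.comp IntF.fst') IntF.snd') 0
  have hvi : ∀ i, RR lt w (sep M (Vp le W (b i) (v i))) (al i) := fun i =>
    (hv' i (hcov (b i) (hbp i) (al i))).1
  obtain ⟨G, δ, hG, -, -, hGi⟩ := unif hs hc (A := fun _ => True) (Int.const _) hb hv
    (fun i _ => hbp i) (fun i i' _ _ => hanti i i')
  -- the injection
  obtain ⟨c, hc', hcc⟩ := exists_lf (iwoNn (N := M)) (γ := K) (r := fun a n => lt a (al n))
    (by (repeat' (first | with_reducible exact IntF.id | with_reducible exact IntF.fst' | with_reducible exact IntF.snd' | with_reducible exact IntF.const _ | with_reducible exact Int.const _ | assumption | with_reducible apply Int.and | with_reducible apply Int.or | with_reducible apply Int.not | with_reducible apply Int.imp | with_reducible apply Int.iff | with_reducible apply Int.ne | with_reducible apply Int.eq | with_reducible apply Int.mem | with_reducible apply Int.subset | with_reducible apply Int.ltN | with_reducible apply Int.leN | with_reducible_and_instances apply Int.le | with_reducible_and_instances apply Int.lt | with_reducible apply Int.all | with_reducible apply Int.ex | with_reducible apply IntF.fst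 | with_reducible apply IntF.snd | with_reducible apply IntF.app | with_reducible apply IntF.inl | with_reducible apply IntF.inr | with_reducible_and_instances apply IntF.mul | with_reducible_and_instances apply IntF.inv | with_reducible_and_instances apply IntF.add | with_reducible_and_instances apply IntF.sub | with_reducible_and_instances apply IntF.neg | with_reducible_and_instances apply IntF.smul | with_reducible apply Int.fin | with_reducible apply IntF.sep | with_reducible apply IntF.lam | with_reducible apply IntF.insert | with_reducible apply IntF.singleton | with_reducible apply IntF.union | with_reducible apply IntF.iimage | with_reducible apply IntF.ite | with_reducible apply IntF.the | with_reducible apply IntF.irec | with_reducible apply IntF.succ | with_reducible apply IntF.val | with_reducible apply IntF.mk | (with_reducible refine Int.comp ?_ ?_; assumption) | (with_reducible refine Int.comp₂ ?_ ?_ ?_; assumption) | (with_reducible refine Int.comp₃ ?_ ?_ ?_ ?_; assumption) | (with_reducible refine Int.comp₄ ?_ ?_ ?_ ?_ ?_; assumption) | (with_reducible refine IntF.comp ?_ ?_; assumption) | (with_reducible refine IntF.comp₂ ?_ ?_ ?_; assumption) | (with_reducible refine IntF.comp₃ ?_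 ?_ ?_ ?_; assumption) | with_reducible apply IntF.pair))) 0
  have hca : ∀ a, lt a (al (c a)) := fun a => (hcc a (hcof a)).1
  obtain ⟨g, hg, hg'⟩ := exists_lf h (γ := K) (r := fun a x => Vp le W (b (c a)) (v (c a)) x ∧
      rk lt w (sep M (Vp le W (b (c a)) (v (c a)))) x = a) (by
        refine Int.and (hVI ((hb.comp hc').comp IntF.fst') ((hv.comp hc').comp IntF.fst')
          IntF.snd') (Int.eq ?_ IntF.fst')
        exact IntF.comp₂ (p := fun C a => rk lt w C a) hr
          (hsp ((hb.comp hc').comp IntF.fst') ((hv.comp hc').comp IntF.fst')) IntF.snd') w
  have hgx : ∀ a, Vp le W (b (c a)) (v (c a)) (g a) ∧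
      rk lt w (sep M (Vp le W (b (c a)) (v (c a)))) (g a) = a := by
    intro a
    obtain ⟨x, hx, h1⟩ := RR.down h (hvi (c a)) (hca a)
    exact (hg' a ⟨x, (mem_sep (hVn _ _)).1 hx, h1⟩).1
  refine hunc ⟨fun a => G (c a, g a), hG.comp (hc'.pair hg), ?_⟩
  intro a a' _ _ haa
  obtain ⟨h1, h2⟩ := hGi (c a) (g a) (c a') (g a') trivial trivial (hgx a).1 (hgx a').1 haa
  rw [← (hgx a).2, ← (hgx a').2, h1, h2]

end

end Pool.Agent.Helper672.ZFA.N643
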