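import Pool.Agent.N643.Ccc
import Pool.Agent.N643.CccDefs
import Pool.Agent.V11246.CohM

/-!
# No forcing with ccc₃ collapses the first uncountable cardinal
-/

set_option maxHeartbeats 1000000
set_option linter.all false
set_option synthInstance.maxSize 2000

namespace Pool.Agent.Helper672.ZFA.N643

open FirstOrder FirstOrder.Language
open H635 (IWO)
open Pool.Agent.Helper672.ZFA.V246
open Pool.Agent.H310
open Pool.Agent.H310Cards
open Pool.Agent.V11246 (IsOrdinal IsSuccCard NameAt Compat)
open Pool.Agent.Helper672.Plain (LSet)
open Pool.Agent.H635Amen (ZF)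

universe u

section

attribute [local instance] Helper672.Plain.toL

variable {M : Type u} [LSet.Structure M] [hZ : ZF M]

local instance instModelL7 : IsModel M := Helper672.Plain.isModel_toL

theorem int_app {α β : Type u} [ITy M α] [ITy M β] (f : M) :
    Int M (fun q : α × β => App f (code q.1) (code q.2)) :=
  Int.congr (p := fun q : α × β => Mem (op (code (M := M) q.1) (code q.2)) f)
    ⟨f, fun _ => Iff.rfl⟩ fun q => app_iff.symm

/-- A set with an injection to the set of the natural numbers is countable. -/
theorem ctb_of_isInj {w₀ E f A : M} (h₀ : IsOmega w₀) (hf : IsInj f E w₀) :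
    Ctb M (fun x : El A => Mem x.1 E) := by
  have hI : Int M (fun q : El A × INat M => App f (code q.1) (code q.2)) := int_app f
  have key : ∀ x : El A, Mem x.1 E →
      App f x.1 (the (fun n : INat M => App f (code x) (code n)) 0).val := by
    intro x hx
    obtain ⟨y, hy, hu⟩ := hf.1.2 x.1 hx
    obtain ⟨q, hq1, hq2⟩ := hy
    obtain ⟨x', y', -, hy', hq3⟩ := hf.1.1 q hq2
    have h1 : y = y' := (op_inj ((ordPair_iff.1 hq1).symm.trans (ordPair_iff.1 hq3))).2
    subst h1
    obtain ⟨n, rfl⟩ := (mem_omega h₀).1 hy'
    have h2 : App f (code x) (code n) := ⟨q, hq1, hq2⟩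
    have h3 : the (fun n : INat M => App f (code x) (code n)) 0 = n := by
      refine the_eq ⟨n, h2, fun m hm => ITy.inj (M := M) ?_⟩ h2
      rw [hu _ hm, hu _ h2]
    rw [h3]
    exact h2
  refine ⟨fun x => the (fun n : INat M => App f (code x) (code n)) 0,
    IntF.the hI (IntF.const _), fun x y hx hy hxy => Subtype.ext ?_⟩
  refine hf.2 _ _ _ (key x hx) ?_
  have hxy' : the (fun n : INat M => App f (code x) (code n)) 0 =
    the (fun n : INat M => App f (code y) (code n)) 0 := hxy
  rw [hxy']
  exact key y hy

theorem ccc_main {w₀ w₁ r P : M} (h₀ : IsOmega w₀) (h₁ : IsSuccCard w₁ w₀)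
    (hP : Pool.Agent.N643.IsForcing r P) (hc : Pool.Agent.N643.IsCCC₃ r P w₀) {p F : M}
    (hF : Pool.Agent.N643.ForcesSurj r P p F w₀ w₁) : False := by
  have hmw : ∀ z, Mem z w₀ ↔ ∃ n : INat M, code n = z := fun z => mem_omega h₀
  have ho₀ : IsOrdinal w₀ := by
    constructor
    · intro x hx y hy
      obtain ⟨n, rfl⟩ := (hmw x).1 hx
      replace hy : Mem y n.val := hy
      obtain ⟨m, -, rfl⟩ := mem_nat hy
      exact (hmw _).2 ⟨m, rfl⟩
    · intro x hx y hy z hz
      obtain ⟨n, rfl⟩ := (hmw x).1 hx
      replace hy : Mem y n.val := hy
      obtain ⟨m, hmn, rfl⟩ := mem_nat hy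
      replace hz : Mem z m.val := hz
      obtain ⟨r, hrm, rfl⟩ := mem_nat hz
      exact hrm.trans hmn
  have hid : ∀ {a b : M}, (∀ x, Mem x a → Mem x b) → ∃ f, IsInj f a b := by
    intro a b hab
    exact ⟨_, isInj_relc (int_incE hab) (fun x y hxy => incE_inj hab hxy) fun x => hab _ x.2⟩
  have m₀ : Mem w₀ w₁ := by
    rcases ord_tri ho₀ h₁.ord with h | h | h
    · exact h
    · subst h
      exact absurd (hid fun x hx => hx) h₁.not_inj
    · exact absurd (hid fun x hx => ho₀.1 w₁ h x hx) h₁.not_inj
  -- the types
  let le : El P → El P → Prop := fun x y => App r x.1 y.1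
  let W : El P → INat M → El w₁ → Prop := fun q n x => ∃ q' : El P, App r q.1 q'.1 ∧
    Mem (op q'.1 (op n.val x.1)) F
  have hle : Int M (fun q : El P × El P => le q.1 q.2) := int_app r
  have hNI : Int M (fun q : El P × (INat M × El w₁) =>
      Mem (op (code q.1) (op (code q.2.1) (code q.2.2))) F) := ⟨F, fun _ => Iff.rfl⟩
  have hWI : Int M (fun q : (El P × INat M) × El w₁ => W q.1.1 q.1.2 q.2) := by
    refine Int.ex (Int.and ?_ ?_)
    · exact Int.comp₂ (p := fun x y => le x y) hle (by (repeat' (first | with_reducible exact IntF.id | with_reducible exact IntF.fst' | with_reducible exact IntF.snd' | with_reducible exact IntF.const _ | with_reducible exact Int.const _ | assumption | with_reducible apply Int.and | with_reducible apply Int.or | with_reducible apply Int.not | with_reducible apply Int.imp | with_reducible apply Int.iff | with_reducible apply Int.ne | with_reducible apply Int.eq | with_reducible apply Int.mem | with_reducible apply Int.subset | with_reducible apply Int.ltN | with_reducible apply Int.leN | with_reducible_and_instances apply Int.le | with_reducible_and_instances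 apply Int.lt | with_reducible apply Int.all | with_reducible apply Int.ex | with_reducible apply IntF.fst | with_reducible apply IntF.snd | with_reducible apply IntF.app | with_reducible apply IntF.inl | with_reducible apply IntF.inr | with_reducible_and_instances apply IntF.mul | with_reducible_and_instances apply IntF.inv | with_reducible_and_instances apply IntF.add | with_reducible_and_instances apply IntF.sub | with_reducible_and_instances apply IntF.neg | with_reducible_and_instances apply IntF.smul | with_reducible apply Int.fin | with_reducible apply IntF.sep | with_reducible apply IntF.lam | with_reducible apply IntF.insert | with_reducible apply IntF.singleton | with_reducible apply IntF.union | with_reducible apply IntF.iimage | with_reducible apply IntF.ite | with_reducible apply IntF.the | with_reducible apply IntF.irec | with_reducible apply IntF.succ | with_reducible apply IntF.val | with_reducible apply IntF.mk | (with_reducible refine Int.comp ?_ ?_; assumption) | (with_reducible refine Int.comp₂ ?_ ?_ ?_; assumption) | (with_reducible refine Int.comp₃ ?_ ?_ ?_ ?_; assumption)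 | (with_reducible refine Int.comp₄ ?_ ?_ ?_ ?_ ?_; assumption) | (with_reducible refine IntF.comp ?_ ?_; assumption) | (with_reducible refine IntF.comp₂ ?_ ?_ ?_; assumption) | (with_reducible refine IntF.comp₃ ?_ ?_ ?_ ?_; assumption) | with_reducible apply IntF.pair))) (by (repeat' (first | with_reducible exact IntF.id | with_reducible exact IntF.fst' | with_reducible exact IntF.snd' | with_reducible exact IntF.const _ | with_reducible exact Int.const _ | assumption | with_reducible apply Int.and | with_reducible apply Int.or | with_reducible apply Int.not | with_reducible apply Int.imp | with_reducible apply Int.iff | with_reducible apply Int.ne | with_reducible apply Int.eq | with_reducible apply Int.mem | with_reducible apply Int.subset | with_reducible apply Int.ltN | with_reducible apply Int.leN | with_reducible_and_instances apply Int.le | with_reducible_and_instances apply Int.lt | with_reducible apply Int.all | with_reducible apply Int.ex | with_reducible apply IntF.fst | with_reducible apply IntF.snd | with_reducible apply IntF.app | with_reducible apply IntF.inl | with_reducible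 apply IntF.inr | with_reducible_and_instances apply IntF.mul | with_reducible_and_instances apply IntF.inv | with_reducible_and_instances apply IntF.add | with_reducible_and_instances apply IntF.sub | with_reducible_and_instances apply IntF.neg | with_reducible_and_instances apply IntF.smul | with_reducible apply Int.fin | with_reducible apply IntF.sep | with_reducible apply IntF.lam | with_reducible apply IntF.insert | with_reducible apply IntF.singleton | with_reducible apply IntF.union | with_reducible apply IntF.iimage | with_reducible apply IntF.ite | with_reducible apply IntF.the | with_reducible apply IntF.irec | with_reducible apply IntF.succ | with_reducible apply IntF.val | with_reducible apply IntF.mk | (with_reducible refine Int.comp ?_ ?_; assumption) | (with_reducible refine Int.comp₂ ?_ ?_ ?_; assumption) | (with_reducible refine Int.comp₃ ?_ ?_ ?_ ?_; assumption) | (with_reducible refine Int.comp₄ ?_ ?_ ?_ ?_ ?_; assumption) | (with_reducible refine IntF.comp ?_ ?_; assumption) | (with_reducible refine IntF.comp₂ ?_ ?_ ?_; assumption) | (with_reducible refine IntF.comp₃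 ?_ ?_ ?_ ?_; assumption) | with_reducible apply IntF.pair)))
    · exact Int.comp (p := fun q : El P × (INat M × El w₁) =>
        Mem (op (code q.1) (op (code q.2.1) (code q.2.2))) F) hNI
        (f := fun q : ((El P × INat M) × El w₁) × El P => (q.2, (q.1.1.2, q.1.2))) (by (repeat' (first | with_reducible exact IntF.id | with_reducible exact IntF.fst' | with_reducible exact IntF.snd' | with_reducible exact IntF.const _ | with_reducible exact Int.const _ | assumption | with_reducible apply Int.and | with_reducible apply Int.or | with_reducible apply Int.not | with_reducible apply Int.imp | with_reducible apply Int.iff | with_reducible apply Int.ne | with_reducible apply Int.eq | with_reducible apply Int.mem | with_reducible apply Int.subset | with_reducible apply Int.ltN | with_reducible apply Int.leN | with_reducible_and_instances apply Int.le | with_reducible_and_instances apply Int.lt | with_reducible apply Int.all | with_reducible apply Int.ex | with_reducible apply IntF.fst | with_reducible apply IntF.snd | with_reducible apply IntF.app | with_reducible apply IntF.inl | with_reducible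 apply IntF.inr | with_reducible_and_instances apply IntF.mul | with_reducible_and_instances apply IntF.inv | with_reducible_and_instances apply IntF.add | with_reducible_and_instances apply IntF.sub | with_reducible_and_instances apply IntF.neg | with_reducible_and_instances apply IntF.smul | with_reducible apply Int.fin | with_reducible apply IntF.sep | with_reducible apply IntF.lam | with_reducible apply IntF.insert | with_reducible apply IntF.singleton | with_reducible apply IntF.union | with_reducible apply IntF.iimage | with_reducible apply IntF.ite | with_reducible apply IntF.the | with_reducible apply IntF.irec | with_reducible apply IntF.succ | with_reducible apply IntF.val | with_reducible apply IntF.mk | (with_reducible refine Int.comp ?_ ?_; assumption) | (with_reducible refine Int.comp₂ ?_ ?_ ?_; assumption) | (with_reducible refine Int.comp₃ ?_ ?_ ?_ ?_; assumption) | (with_reducible refine Int.comp₄ ?_ ?_ ?_ ?_ ?_; assumption) | (with_reducible refine IntF.comp ?_ ?_; assumption) | (with_reducible refine IntF.comp₂ ?_ ?_ ?_; assumption) | (with_reducible refine IntF.comp₃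 ?_ ?_ ?_ ?_; assumption) | with_reducible apply IntF.pair)))
  have hnm : ∀ (n : INat M), Mem n.val w₀ := fun n => (hmw _).2 ⟨n, rfl⟩
  have hW : ∀ (q : El P) (n : INat M) (x : El w₁), W q n x ↔
      ∃ q' : M, App r q.1 q' ∧ NameAt F q' n.val x.1 := by
    intro q n x
    constructor
    · rintro ⟨q', h1, h2⟩
      exact ⟨q'.1, h1, nameAt_iff.2 h2⟩
    · rintro ⟨q', h1, h2⟩
      exact ⟨⟨q', (hP.rel _ _ h1).2⟩, h1, nameAt_iff.1 h2⟩
  have hs : Sys M le W ⟨p, hF.mem⟩ := by
    refine ⟨hle, hWI, fun q => hP.refl _ q.2, fun q s t h1 h2 => hP.trans _ _ _ h1 h2,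
      ?_, ?_, ?_, ?_⟩
    · rintro q s n x h1 ⟨q', h2, h3⟩
      exact ⟨q', hP.trans _ _ _ h1 h2, h3⟩
    · intro s n x y h1 h2 h3
      obtain ⟨q, h4, h5⟩ := (hW s n x).1 h2
      obtain ⟨q', h6, h7⟩ := (hW s n y).1 h3
      exact Subtype.ext (hF.func s.1 q q' n.val x.1 y.1 h1 h4 h6 (hnm n) x.2 y.2 h5 h7)
    · intro s n h1
      obtain ⟨t, q, y, h2, h3, h4, h5⟩ := hF.total n.val s.1 (hnm n) h1
      exact ⟨⟨t, (hP.rel _ _ h2).1⟩, ⟨y, h4⟩, h2, (hW _ _ _).2 ⟨q, h3, h5⟩⟩
    · intro s x h1
      obtain ⟨t, q, y, h2, h3, h4, h5⟩ := hF.onto x.1 s.1 x.2 h1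
      obtain ⟨n, rfl⟩ := (hmw y).1 h4
      exact ⟨⟨t, (hP.rel _ _ h2).1⟩, n, h2, (hW _ _ _).2 ⟨q, h3, h5⟩⟩
  have hc3 : C3 M le := by
    intro D hD hDp
    obtain ⟨E, h1, h2, f, hf⟩ := hc hD.small.elt (by
      constructor
      · intro d hd
        obtain ⟨a, -, rfl⟩ := hD.small.mem.1 hd
        exact a.2
      · intro q hq
        obtain ⟨d, h1, s, h2, h3⟩ := hDp ⟨q, hq⟩
        exact ⟨d.1, hD.small.mem.2 ⟨d, h1, rfl⟩, s.1, s.2, h2, h3⟩)
    refine ⟨fun q => Mem q.1 E, ⟨E, fun q => Iff.rfl⟩, ?_, ?_, ctb_of_isInj h₀ hf⟩
    · intro q hq
      obtain ⟨a, h3, h4⟩ := hD.small.mem.1 (h1 _ hq)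
      rwa [show q = a from Subtype.ext h4.symm]
    · intro q
      obtain ⟨d, h3, s, h4, h5, h6⟩ := h2.2 q.1 q.2
      exact ⟨⟨d, h2.1 d h3⟩, h3, ⟨s, h4⟩, h5, h6⟩
  have hw : IWO M (El w₁) (fun x y => Mem x.1 y.1) :=
    iwo_El fun x hx => isOrdinal_of_mem h₁.ord hx
  have hnw : ∀ n : INat M, Mem n.val w₁ := fun n => h₁.ord.1 _ m₀ _ (hnm n)
  refine main hs hc3 hw (w := ⟨w₀, m₀⟩) (j := fun n => ⟨n.val, hnw n⟩) ?_ ?_ ?_ ?_ ?_
  · exact IntF.of_D (S := fun v => v 0 = v 1) (D.eqf (DF.var _) (DF.var _))
      fun x y => ⟨fun h1 => Subtype.ext h1, fun h1 => congrArg Subtype.val h1⟩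
  · intro m n hmn
    exact INat.ext (congrArg (fun z : El w₁ => z.1) hmn)
  · exact fun n => hnm n
  · intro a
    obtain ⟨f, hf⟩ := h₁.least a.1 a.2
    exact ctb_of_isInj h₀ hf
  · rintro ⟨e, he, hei⟩
    exact h₁.not_inj ⟨_, isInj_relc he (fun x y hxy => hei x y trivial trivial hxy)
      fun x => hnm (e x)⟩

end

end Pool.Agent.Helper672.ZFA.N643
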